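import Pool.Agent.Helper65.IC.St

/-!
# Project IC, module JB: number of jumps in a soluble group of finite special rank
-/

set_option autoImplicit false

universe u

namespace Pool.Agent.Helper72.IC

open Subgroup Pool.Agent.Helper58.RK Pool.Agent.Helper65.IC
open scoped commutatorElement

/-- finite special rank passes to quotients -/
theorem srank_quot {H : Type u} [Group H] {r : ℕ} (hr : SRank H r) (A : Subgroup H) [A.Normal] :
    SRank (H ⧸ A) r := by
  classical
  intro K hK
  obtain ⟨t, ht⟩ := hK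
  have hsurj : Function.Surjective (QuotientGroup.mk' A) := QuotientGroup.mk'_surjective A
  obtain ⟨g, hg⟩ := hsurj.hasRightInverse
  have h1 : (closure (↑(t.image g) : Set H)).map (QuotientGroup.mk' A) = K := by
    rw [MonoidHom.map_closure, ← ht]
    congr 1
    ext x
    simp only [Set.mem_image, Finset.coe_image]
    constructor
    · rintro ⟨y, ⟨z, hz, rfl⟩, rfl⟩
      rw [hg z]
      exact hz
    · intro hx
      exact ⟨g x, ⟨x, hx, rfl⟩, hg x⟩
  obtain ⟨s, hs, hsK⟩ := hr (closure (↑(t.image g) : Set H)) ⟨t.image g, rfl⟩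
  refine ⟨s.image (QuotientGroup.mk' A), le_trans Finset.card_image_le hs, ?_⟩
  rw [← h1, ← hsK, MonoidHom.map_closure, Finset.coe_image]

/-- at most `r` jumps are seen by an abelian subgroup -/
theorem card_abelian {H : Type u} [Group H] {r : ℕ} (hr : SRank H r) (A : Subgroup H)
    (hA : ∀ x ∈ A, ∀ y ∈ A, ⁅x, y⁆ = 1) (L : ℕ → Subgroup H) (hL : Monotone L) (I : Finset ℕ)
    (hI : ∀ i ∈ I, ∃ a ∈ A, a ∈ L (i + 1) ∧ ∀ t : ℕ, 0 < t → a ^ t ∉ L i) : I.card ≤ r := by
  classical
  by_contra hlt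
  rw [not_le] at hlt
  have hc' : ∀ i : ℕ, ∃ a : H, i ∈ I → (a ∈ A ∧ a ∈ L (i + 1) ∧ ∀ t : ℕ, 0 < t → a ^ t ∉ L i) := by
    intro i
    by_cases hi : i ∈ I
    · obtain ⟨a, h1, h2, h3⟩ := hI i hi
      exact ⟨a, fun _ => ⟨h1, h2, h3⟩⟩
    · exact ⟨1, fun h => absurd h hi⟩
  choose c hc using hc'
  have hle : r + 1 ≤ I.card := hlt
  obtain ⟨f, hf1, hf2⟩ : ∃ f : Fin (r + 1) → ℕ, StrictMono f ∧ ∀ j, f j ∈ I :=
    ⟨I.orderEmbOfCardLe hle, (I.orderEmbOfCardLe hle).strictMono,
      fun j => I.orderEmbOfCardLe_mem hle j⟩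
  obtain ⟨idx, hidx⟩ : ∃ idx : ℕ → ℕ, ∀ j, idx j = f ⟨r - j, by omega⟩ := ⟨_, fun _ => rfl⟩
  have hidxI : ∀ j, idx j ∈ I := fun j => by
    rw [hidx]
    exact hf2 _
  have hdec : ∀ i j, i < j → j ≤ r → idx j < idx i := by
    intro i j hij hj
    rw [hidx, hidx]
    apply hf1
    rw [Fin.lt_def]
    change r - j < r - i
    omega
  refine rank_lemma hr (fun j => c (idx j)) (fun j => L (idx j)) ?_ ?_ ?_
  · intro x hx y hy i _
    have hsub : closure ((fun j => c (idx j)) '' Set.Iic r) ≤ A := by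
      rw [closure_le]
      rintro _ ⟨j, _, rfl⟩
      exact (hc (idx j) (hidxI j)).1
    rw [hA x (hsub hx) y (hsub hy)]
    exact one_mem _
  · intro i _ n hn
    exact (hc (idx i) (hidxI i)).2.2 n hn
  · intro i j hij hj
    exact hL (hdec i j hij hj) (hc (idx j) (hidxI j)).2.1

theorem pJB : StJB.{u} := by
  intro H _ k
  induction k generalizing H with
  | zero =>
    intro r _ hd L _ _ s h hh
    rw [derivedSeries_zero] at hd
    have : s = ∅ := by
      rw [Finset.eq_empty_iff_forall_notMem]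
      intro i hi
      have h1 : h i ∈ (⊥ : Subgroup H) := by
        rw [← hd]
        exact mem_top _
      rw [mem_bot] at h1
      apply (hh i hi).2 1 one_pos
      rw [h1, one_pow]
      exact one_mem _
    rw [this]
    simp
  | succ k ih =>
    intro r hr hd L hLn hL s h hh
    classical
    obtain ⟨A, hAdef⟩ : ∃ A : Subgroup H, A = derivedSeries H k := ⟨_, rfl⟩
    have hAn : A.Normal := by
      rw [hAdef]
      infer_instance
    have hAc : ∀ x ∈ A, ∀ y ∈ A, ⁅x, y⁆ = 1 := by
      intro x hx y hy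
      have h1 : ⁅x, y⁆ ∈ derivedSeries H (k + 1) := by
        rw [derivedSeries_succ, ← hAdef]
        exact commutator_mem_commutator hx hy
      rw [hd, mem_bot] at h1
      exact h1
    obtain ⟨I, hI⟩ : ∃ I : Finset ℕ, I = s.filter
        (fun i => ∃ a ∈ A, a ∈ L (i + 1) ∧ ∀ t : ℕ, 0 < t → a ^ t ∉ L i) := ⟨_, rfl⟩
    have hIc : I.card ≤ r := by
      refine card_abelian hr A hAc L hL I (fun i hi => ?_)
      rw [hI, Finset.mem_filter] at hi
      exact hi.2
    have hsub : I ⊆ s := by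
      rw [hI]
      exact Finset.filter_subset _ _
    have hrest : (s \ I).card ≤ r * k := by
      refine ih (H ⧸ A) r (srank_quot hr A) ?_ (fun i => (L i).map (QuotientGroup.mk' A))
        (fun i => (hLn i).map _ (QuotientGroup.mk'_surjective A))
        (fun i j hij => Subgroup.map_mono (hL hij)) (s \ I) (fun i => (h i : H ⧸ A)) ?_
      · rw [← map_derivedSeries_eq (QuotientGroup.mk'_surjective A), ← hAdef]
        rw [Subgroup.map_eq_bot_iff, QuotientGroup.ker_mk']
      · intro i hi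
        rw [Finset.mem_sdiff] at hi
        obtain ⟨his, hiI⟩ := hi
        refine ⟨⟨h i, (hh i his).1, rfl⟩, fun t ht hmem => ?_⟩
        obtain ⟨l, hl, hle⟩ := hmem
        have hle' : (l : H ⧸ A) = ((h i ^ t : H) : H ⧸ A) := hle
        rw [QuotientGroup.eq] at hle'
        have haL : l⁻¹ * h i ^ t ∈ L (i + 1) :=
          mul_mem (inv_mem (hL (Nat.le_succ i) hl)) (pow_mem (hh i his).1 t)
        obtain ⟨n, hn, hn2⟩ : ∃ n : ℕ, 0 < n ∧ (l⁻¹ * h i ^ t) ^ n ∈ L i := by
          by_contra hno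
          apply hiI
          rw [hI, Finset.mem_filter]
          refine ⟨his, _, hle', haL, fun n hn hmem => hno ⟨n, hn, hmem⟩⟩
        have hLi := hLn i
        have h2 : ((l⁻¹ * h i ^ t : H) : H ⧸ L i) = ((h i ^ t : H) : H ⧸ L i) := by
          rw [QuotientGroup.mk_mul, QuotientGroup.mk_inv, (QuotientGroup.eq_one_iff l).2 hl,
            inv_one, one_mul]
        have h3 : ((h i ^ (t * n) : H) : H ⧸ L i) = 1 := by
          rw [pow_mul, QuotientGroup.mk_pow, ← h2, ← QuotientGroup.mk_pow]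
          exact (QuotientGroup.eq_one_iff _).2 hn2
        exact (hh i his).2 (t * n) (Nat.mul_pos ht hn) ((QuotientGroup.eq_one_iff _).1 h3)
    have hcard : (s \ I).card + I.card = s.card := Finset.card_sdiff_add_card_eq_card hsub
    calc s.card = (s \ I).card + I.card := hcard.symm
      _ ≤ r * k + r := Nat.add_le_add hrest hIc
      _ = r * (k + 1) := by ring

end Pool.Agent.Helper72.IC
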